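import Pool.Agent.W117.GS.Stm
import Pool.Agent.W117.GH.Asm

/-!
# Final assembly of project GS
-/

set_option autoImplicit false

open scoped ContDiff ComplexConjugate
open MeasureTheory Filter Topology Set

noncomputable section

namespace Pool.Agent.W117.GS

open Pool.Agent.W117.GH

theorem final (hE3 : PropE3) (hFE : PropFE) (hSD : PropSD) (hST : PropST) (hMA : PropMA)
    (hHI : PropHI) (hBO : PropBO) (ε G : ℝ) (hε : 0 < ε) (hG : 0 < G) (S : Finset ℂ) (n : ℂ → ℕ)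
    (hn : ∀ p ∈ S, 1 ≤ n p ∧ 4 * Real.pi * ε ^ 2 * G * n p < 1)
    (hN : 1 / (4 * Real.pi * ε ^ 2 * G) < ((∑ p ∈ S, n p : ℕ) : ℝ)) :
    ∃ X : Fields, X.IsSolution ε G ∧ X.FiniteEnergy ε ∧ X.IsNString (∑ p ∈ S, n p) ∧
      ∃ ψ : ℂ → ℂ, ContDiff ℝ ∞ ψ ∧ (∀ z, ψ z ≠ 0) ∧
        ∀ z, X.phi z = (∏ p ∈ S, (z - p) ^ n p) * ψ z := by
  set a := 4 * Real.pi * ε ^ 2 * G with haa
  have ha : 0 < a := by positivity
  have hS : S.Nonempty := by
    by_contra h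
    rw [Finset.not_nonempty_iff_eq_empty] at h
    subst h
    simp only [Finset.sum_empty, Nat.cast_zero] at hN
    have : 0 < 1 / a := by positivity
    linarith
  obtain ⟨c, C, v, hc, hv, hP, hb, hd⟩ := hE3 a S n ha hS hn
  set g : ℂ → ℂ := fun z => (c : ℂ) * ∏ p ∈ S, (z - p) ^ n p with hg
  have hgd : Differentiable ℂ g := by
    rw [hg]
    have : Differentiable ℂ (fun z : ℂ => ∏ p ∈ S, (z - p) ^ n p) := by
      have h := Differentiable.fun_finsetProd (𝕜 := ℂ) (u := S)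
        (f := fun p (z : ℂ) => (z - p) ^ n p) (fun p _ => by fun_prop)
      simpa using h
    exact this.const_mul _
  have hsol := isSolution hSD hST hMA hHI hBO ε G hε g v hgd hv hP
  have hcc : (c : ℂ) ≠ 0 := by exact_mod_cast hc.ne'
  have hec : (ε : ℂ) ≠ 0 := by exact_mod_cast hε.ne'
  have hψ1 : ContDiff ℝ ∞ (fun z : ℂ => (ε : ℂ) * c * ((Real.exp (v z / 2) : ℝ) : ℂ)) :=
    contDiff_const.mul (Complex.ofRealCLM.contDiff.comp (hv.div_const 2).exp)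
  have hψ2 : ∀ z : ℂ, (ε : ℂ) * c * ((Real.exp (v z / 2) : ℝ) : ℂ) ≠ 0 := by
    intro z
    have h2 : ((Real.exp (v z / 2) : ℝ) : ℂ) ≠ 0 := by
      exact_mod_cast (Real.exp_pos _).ne'
    exact mul_ne_zero (mul_ne_zero hec hcc) h2
  have hψ3 : ∀ z : ℂ, (fields ε a g v).phi z =
      (∏ p ∈ S, (z - p) ^ n p) * ((ε : ℂ) * c * ((Real.exp (v z / 2) : ℝ) : ℂ)) := by
    intro z
    show (ε : ℂ) * g z * _ = _
    rw [hg]; ring
  have hs : 2 < 2 * a * ∑ p ∈ S, (n p : ℝ) := by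
    rw [div_lt_iff₀ ha] at hN
    push_cast at hN
    nlinarith
  refine ⟨fields ε a g v, hsol, ?_, ?_, ?_⟩
  · exact hFE ε G a _ C g v hε ha hs hgd hv hP hb hd hsol.einstein
  · exact ⟨S, n, _, hψ1, hψ2, fun p hp => (hn p hp).1, rfl, hψ3⟩
  · exact ⟨_, hψ1, hψ2, hψ3⟩

/-- The answer to the question when `4 π ε² G < 1`. -/
theorem final2 (hE3 : PropE3) (hFE : PropFE) (hSD : PropSD) (hST : PropST) (hMA : PropMA)
    (hHI : PropHI) (hBO : PropBO) (ε G : ℝ) (hε : 0 < ε) (hG : 0 < G)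
    (ha : 4 * Real.pi * ε ^ 2 * G < 1) (N : ℕ) (hN : 1 / (2 * Real.pi * ε ^ 2 * G) ≤ (N : ℝ))
    (S : Finset ℂ) (hS : S.card = N) :
    ∃ X : Fields, X.IsSolution ε G ∧ X.FiniteEnergy ε ∧ X.IsNString N ∧
      ∃ ψ : ℂ → ℂ, ContDiff ℝ ∞ ψ ∧ (∀ z, ψ z ≠ 0) ∧
        ∀ z, X.phi z = (∏ p ∈ S, (z - p)) * ψ z := by
  have h := final hE3 hFE hSD hST hMA hHI hBO ε G hε hG S (fun _ => 1)
    (fun p _ => ⟨le_refl _, by simpa using ha⟩) (by
      simp only [Finset.sum_const, smul_eq_mul, mul_one, hS]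
      have h0 : 0 < 1 / (4 * Real.pi * ε ^ 2 * G) := by positivity
      have h1 : 1 / (2 * Real.pi * ε ^ 2 * G) = 2 * (1 / (4 * Real.pi * ε ^ 2 * G)) := by
        field_simp; norm_num
      rw [h1] at hN
      linarith)
  simpa [hS] using h

end Pool.Agent.W117.GS
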