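import Pool.Agent.Helper676.CS4
import Pool.Agent.W117.GH.Stm

/-!
# Statements of the parts of project GS (strings at arbitrary positions)

`lap`, `Gc` are the Laplacian on `ℝ × ℝ` and the operator `(K - Δ)⁻¹` of `Helper676.CS0, CS3`.
-/

set_option autoImplicit false

open scoped ContDiff ComplexConjugate
open MeasureTheory Filter Topology Set

noncomputable section

namespace Pool.Agent.W117.GS

open Pool.Agent.Helper676.CS (lap Gc)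

/-- `f` is `C^n` and its derivatives of order `≤ n` are bounded -/
def CB {V : Type} [NormedAddCommGroup V] [NormedSpace ℝ V] (n : ℕ) (f : ℝ × ℝ → V) : Prop :=
  ContDiff ℝ n f ∧ ∀ i ≤ n, ∃ C, ∀ x, ‖iteratedFDeriv ℝ i f x‖ ≤ C

/-- the space of coefficients -/
abbrev U3 : Type := ℝ × ℝ × ℝ

/-! ## Functions with bounded derivatives -/

/-- composition with a smooth function -/
def PropCO : Prop :=
  ∀ (V W : Type) [NormedAddCommGroup V] [NormedSpace ℝ V] [FiniteDimensional ℝ V]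
    [NormedAddCommGroup W] [NormedSpace ℝ W] (n : ℕ) (F : V → W) (f : ℝ × ℝ → V),
    ContDiff ℝ ∞ F → CB n f → CB n (fun x => F (f x))

/-- pairs -/
def PropPA : Prop :=
  ∀ (V W : Type) [NormedAddCommGroup V] [NormedSpace ℝ V]
    [NormedAddCommGroup W] [NormedSpace ℝ W] (n : ℕ) (f : ℝ × ℝ → V) (g : ℝ × ℝ → W),
    CB n f → CB n g → CB n (fun x => (f x, g x))

/-- gradient bound for `(K - Δ)⁻¹` -/
def PropG1 : Prop :=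
  ∀ (K C : ℝ) (h : ℝ × ℝ → ℝ), 0 < K → Measurable h → (∀ y, |h y| ≤ C) → CB 1 (Gc K h)

/-- `(K - Δ)⁻¹` gains a derivative -/
def PropG2 : Prop :=
  ∀ (K : ℝ) (n : ℕ) (h : ℝ × ℝ → ℝ), 0 < K → CB n h → CB (n + 1) (Gc K h)

/-- the equation -/
def PropG3 : Prop :=
  ∀ (K : ℝ) (h : ℝ × ℝ → ℝ), 0 < K → CB 1 h → ContDiff ℝ 2 (Gc K h) →
    ∀ x, K * Gc K h x - lap (Gc K h) x = h x

/-! ## The existence theorem on the plane -/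

/-- comparison for bounded functions on the plane -/
def PropMP : Prop :=
  ∀ (K C : ℝ) (u W : ℝ × ℝ → ℝ), 0 < K → ContDiff ℝ 2 u → ContDiff ℝ 2 W →
    (∀ x, |u x| ≤ C) → (∀ x, |W x| ≤ C) → (∀ x, K * u x - lap u x ≤ K * W x - lap W x) →
    ∀ x, u x ≤ W x

/-- a constant that makes the nonlinearity monotone -/
def PropKE : Prop :=
  ∀ (F : U3 × ℝ → ℝ) (R m M : ℝ), ContDiff ℝ ∞ F → ∃ K, 0 < K ∧ ∀ (u : U3) (y y' : ℝ),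
    ‖u‖ ≤ R → m ≤ y → y ≤ y' → y' ≤ M → K * y + F (u, y) ≤ K * y' + F (u, y')

/-- regularity of solutions of the integral equation -/
def PropRG : Prop :=
  ∀ (K C : ℝ) (F : U3 × ℝ → ℝ) (U : ℝ × ℝ → U3) (w : ℝ × ℝ → ℝ), 0 < K → ContDiff ℝ ∞ F →
    (∀ n, CB n U) → Measurable w → (∀ x, |w x| ≤ C) →
    (∀ x, w x = Gc K (fun y => K * w y + F (U y, w y)) x) →
    (∀ n, CB n w) ∧ ∀ x, -lap w x = F (U x, w x)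

/-- existence between a constant subsolution and a supersolution -/
def PropEX : Prop :=
  ∀ (F : U3 × ℝ → ℝ) (U : ℝ × ℝ → U3) (m M : ℝ) (W : ℝ × ℝ → ℝ), ContDiff ℝ ∞ F →
    (∀ n, CB n U) → ContDiff ℝ 2 W → (∀ x, m ≤ W x) → (∀ x, W x ≤ M) →
    (∀ x, 0 ≤ F (U x, m)) → (∀ x, F (U x, W x) ≤ -lap W x) →
    ∃ w : ℝ × ℝ → ℝ, (∀ n, CB n w) ∧ (∀ x, m ≤ w x) ∧ (∀ x, w x ≤ W x) ∧
      ∀ x, -lap w x = F (U x, w x)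

/-! ## The explicit functions -/

/-- `|z - p|²` -/
def sp (p z : ℝ × ℝ) : ℝ := (z.1 - p.1) ^ 2 + (z.2 - p.2) ^ 2

/-- `v₀ = - ∑ n_p (1/M) log (1 + |z-p|^{2M})` -/
def v0 (S : Finset (ℝ × ℝ)) (n : ℝ × ℝ → ℕ) (M : ℕ) (z : ℝ × ℝ) : ℝ :=
  -∑ p ∈ S, (n p : ℝ) * (1 / M * Real.log (1 + sp p z ^ M))

/-- `e^{a v₀}` -/
def EE (a : ℝ) (S : Finset (ℝ × ℝ)) (n : ℝ × ℝ → ℕ) (M : ℕ) (z : ℝ × ℝ) : ℝ :=
  Real.exp (a * v0 S n M z)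

/-- `∏ |z-p|^{2 n_p}` -/
def gg (S : Finset (ℝ × ℝ)) (n : ℝ × ℝ → ℕ) (z : ℝ × ℝ) : ℝ := ∏ p ∈ S, sp p z ^ n p

/-- `∏ |z-p|^{2 n_p} e^{v₀}` -/
def BB (S : Finset (ℝ × ℝ)) (n : ℝ × ℝ → ℕ) (M : ℕ) (z : ℝ × ℝ) : ℝ :=
  gg S n z * Real.exp (v0 S n M z)

/-- `-Δ v₀` -/
def kk (S : Finset (ℝ × ℝ)) (n : ℝ × ℝ → ℕ) (M : ℕ) (z : ℝ × ℝ) : ℝ :=
  ∑ p ∈ S, (n p : ℝ) * (4 * M * sp p z ^ (M - 1) / (1 + sp p z ^ M) ^ 2)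

/-- `V = log 2 - ∑ n_p log (μ + |z-p|²)` -/
def VV (S : Finset (ℝ × ℝ)) (n : ℝ × ℝ → ℕ) (μ : ℝ) (z : ℝ × ℝ) : ℝ :=
  Real.log 2 - ∑ p ∈ S, (n p : ℝ) * Real.log (μ + sp p z)

/-- the basic functions have bounded derivatives -/
def PropCL : Prop :=
  ∀ (M i j : ℕ) (α : ℝ) (p : ℝ × ℝ), 1 ≤ M → (i + j : ℝ) ≤ 2 * M * α → ∀ k,
    CB k (fun z => (z.1 - p.1) ^ i * (z.2 - p.2) ^ j * (1 + sp p z ^ M) ^ (-α))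

/-- the coefficients have bounded derivatives -/
def PropCX : Prop :=
  ∀ (a : ℝ) (S : Finset (ℝ × ℝ)) (n : ℝ × ℝ → ℕ) (M : ℕ), 0 < a → 1 ≤ M → ∀ k,
    CB k (EE a S n M) ∧ CB k (BB S n M) ∧ CB k (kk S n M)

/-- the Laplacian of `v₀` -/
def PropLV : Prop :=
  ∀ (S : Finset (ℝ × ℝ)) (n : ℝ × ℝ → ℕ) (M : ℕ), 1 ≤ M →
    ContDiff ℝ ∞ (v0 S n M) ∧ ∀ z, lap (v0 S n M) z = -kk S n M z

/-- the Laplacian of `V` -/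
def PropLW : Prop :=
  ∀ (S : Finset (ℝ × ℝ)) (n : ℝ × ℝ → ℕ) (μ : ℝ), 0 < μ →
    ContDiff ℝ ∞ (VV S n μ) ∧
      ∀ z, -lap (VV S n μ) z = ∑ p ∈ S, (n p : ℝ) * (4 * μ / (μ + sp p z) ^ 2)

/-- the constant subsolution -/
def PropSB : Prop :=
  ∀ (a : ℝ) (S : Finset (ℝ × ℝ)) (n : ℝ × ℝ → ℕ) (M : ℕ), 0 < a → 1 ≤ M →
    a * ∑ p ∈ S, (n p : ℝ) ≤ M + 1 → ∃ C, ∀ z, kk S n M z ≤ C * EE a S n M z

/-- the supersolution -/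
def PropSP : Prop :=
  ∀ (a lam : ℝ) (S : Finset (ℝ × ℝ)) (n : ℝ × ℝ → ℕ), 0 < a → 0 < lam → S.Nonempty →
    (∀ p ∈ S, 1 ≤ n p ∧ a * n p < 1) → ∃ μ₀ > 0, ∀ μ, 0 < μ → μ ≤ μ₀ → ∀ z,
      lam * (Real.exp (a * (VV S n μ z - gg S n z * Real.exp (VV S n μ z))) *
        (1 - gg S n z * Real.exp (VV S n μ z))) ≤
      ∑ p ∈ S, (n p : ℝ) * (4 * μ / (μ + sp p z) ^ 2)

/-- bounds for `V - v₀` -/
def PropWB : Prop :=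
  ∀ (S : Finset (ℝ × ℝ)) (n : ℝ × ℝ → ℕ) (M : ℕ) (μ : ℝ), 1 ≤ M → 0 < μ → μ ≤ 1 →
    ∃ C, ∀ z, -((∑ p ∈ S, (n p : ℝ)) * Real.log 2) ≤ VV S n μ z - v0 S n M z ∧
      VV S n μ z - v0 S n M z ≤ C

/-- `0 ≤ |g|² e^{v₀} ≤ 1` -/
def PropBB : Prop :=
  ∀ (S : Finset (ℝ × ℝ)) (n : ℝ × ℝ → ℕ) (M : ℕ), 1 ≤ M → ∀ z,
    0 ≤ BB S n M z ∧ BB S n M z ≤ 1

/-- existence, in the real plane -/
def PropE2 : Prop :=
  ∀ (a : ℝ) (S : Finset (ℝ × ℝ)) (n : ℝ × ℝ → ℕ) (M : ℕ), 0 < a → 1 ≤ M → S.Nonempty →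
    (∀ p ∈ S, 1 ≤ n p ∧ a * n p < 1) → a * ∑ p ∈ S, (n p : ℝ) ≤ M + 1 →
    ∃ (lam C : ℝ) (w : ℝ × ℝ → ℝ), 0 < lam ∧ ContDiff ℝ ∞ w ∧ (∀ z, |w z| ≤ C) ∧
      ∀ z, -lap w z = lam * EE a S n M z * Real.exp (a * (w z - BB S n M z * Real.exp (w z))) *
        (1 - BB S n M z * Real.exp (w z)) - kk S n M z

/-! ## Back to `ℂ` -/

open Pool.Agent.W117.GH

/-- decay of `e^{a v₀}` -/
def PropDC : Prop :=
  ∀ (a : ℝ) (S : Finset (ℝ × ℝ)) (n : ℝ × ℝ → ℕ) (M : ℕ), 0 < a → 1 ≤ M →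
    ∃ C, ∀ z : ℂ, EE a S n M (z.re, z.im) ≤ C * (1 + ‖z‖) ^ (-(2 * a * ∑ p ∈ S, (n p : ℝ)))

/-- existence, in the complex plane -/
def PropE3 : Prop :=
  ∀ (a : ℝ) (S : Finset ℂ) (n : ℂ → ℕ), 0 < a → S.Nonempty →
    (∀ p ∈ S, 1 ≤ n p ∧ a * n p < 1) →
    ∃ (c C : ℝ) (v : ℂ → ℝ), 0 < c ∧ ContDiff ℝ ∞ v ∧
      PDE a (fun z => (c : ℂ) * ∏ p ∈ S, (z - p) ^ n p) v ∧
      (∀ z, Complex.normSq ((c : ℂ) * ∏ p ∈ S, (z - p) ^ n p) * Real.exp (v z) ≤ C) ∧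
      ∀ z, Real.exp (a * v z) ≤ C * (1 + ‖z‖) ^ (-(2 * a * ∑ p ∈ S, (n p : ℝ)))

/-- integrability by testing with cutoff functions -/
def PropIT : Prop :=
  ∀ (q f b : ℂ → ℝ) (C : ℝ), Continuous q → (∀ z, 0 ≤ q z) → Integrable f → ContDiff ℝ 2 b →
    (∀ z, |b z| ≤ C) → (∀ z, q z = f z + Lap b z) → Integrable q

/-- finite energy -/
def PropFE : Prop :=
  ∀ (ε G a s C : ℝ) (g : ℂ → ℂ) (v : ℂ → ℝ), 0 < ε → 0 < a → 2 < s → Differentiable ℂ g →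
    ContDiff ℝ ∞ v → PDE a g v → (∀ z, Complex.normSq (g z) * Real.exp (v z) ≤ C) →
    (∀ z, Real.exp (a * v z) ≤ C * (1 + ‖z‖) ^ (-s)) →
    (∀ z, (fields ε a g v).K z = 8 * Real.pi * G * (fields ε a g v).H ε z) →
    (fields ε a g v).FiniteEnergy ε

end Pool.Agent.W117.GS
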